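import Pool.Agent.N141.CV.C3b

/-!
# CV/C3: the intersection of a curve with the surface is rationally equivalent to zero
-/

set_option autoImplicit false
set_option linter.overlappingInstances false
set_option linter.unusedSectionVars false
set_option linter.unusedVariables false

open FF Polynomial Pool.Agent.Y184.NT Pool.Agent.Y988.NT Pool.Agent.W603.LV
  Pool.Agent.N162.BC Pool.Agent.N162.CV Pool.Agent.N162.HS

namespace Pool.Agent.N141.CV

section

variable {K Ω E : Type} [Field K] [Algebra ℂ K] [Field Ω] [Algebra ℂ Ω]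
    [Field E] [Algebra Ω E] [IsAlgClosed Ω] [CharZero Ω] [IsFF Ω E] [Algebra ℂ E]
    [IsScalarTower ℂ Ω E]
    {F : MvPolynomial (Fin 4) ℂ} {d : ℕ} {x : Fin 4 → K}

/-- one irreducible factor -/
theorem rat_factor (hNF : StNF) (hs : Sm F) (hF : F.IsHomogeneous d)
    (hd : 2 ≤ d) (h1 : MvPolynomial.eval ![0, 0, 0, 1] F ≠ 0) (hx0 : x 0 = 1)
    (hx : MvPolynomial.aeval x F = 0) (hgen : IntermediateField.adjoin ℂ (Set.range x) = ⊤)
    (hK : Algebra.trdeg ℂ K = 2) (hR : Relns F x) {X : Fin 4 → E} (hX : Good Ω X)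
    (hXi : AlgebraicIndependent ℂ (fun i => X (s12 i))) {g : E[X]} (hgm : g.Monic)
    (hgi : Irreducible g) (hgd : g ∣ Phi F X) (hg0 : g.eval (X 3) ≠ 0) (c : (K →ₐ[ℂ] Ω) →₀ ℤ)
    (hc : ∀ σ : K →ₐ[ℂ] Ω, c σ = mu X (g.eval (X 3)) (fun j => σ (x j))) : c ∈ Rat K Ω := by
  have : Fact (Irreducible g) := ⟨hgi⟩
  have : FiniteDimensional E (AdjoinRoot g) := hgm.finite_adjoinRoot
  have : IsFF Ω (AdjoinRoot g) := isFF_fin (E := E)
  refine rat_abs hNF (M := AdjoinRoot g) hs hF hd h1 hx0 hx hgen hK hR hX hXi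
    (AdjoinRoot.root g) ?_ (g.eval (X 3)) hg0 (norm_sub_root hgm _) c hc
  obtain ⟨q, hq⟩ := hgd
  rw [hq, map_mul, AdjoinRoot.aeval_eq, AdjoinRoot.mk_self, zero_mul]

theorem rat_multi (hNF : StNF) (hs : Sm F) (hF : F.IsHomogeneous d)
    (hd : 2 ≤ d) (h1 : MvPolynomial.eval ![0, 0, 0, 1] F ≠ 0) (hx0 : x 0 = 1)
    (hx : MvPolynomial.aeval x F = 0) (hgen : IntermediateField.adjoin ℂ (Set.range x) = ⊤)
    (hK : Algebra.trdeg ℂ K = 2) (hR : Relns F x) {X : Fin 4 → E} (hX : Good Ω X)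
    (hXi : AlgebraicIndependent ℂ (fun i => X (s12 i))) (S : Multiset E[X]) :
    (∀ g ∈ S, g.Monic ∧ Irreducible g ∧ g ∣ Phi F X ∧ g.eval (X 3) ≠ 0) →
    ∀ c : (K →ₐ[ℂ] Ω) →₀ ℤ,
    (∀ σ : K →ₐ[ℂ] Ω, c σ = mu X ((S.map fun g => g.eval (X 3)).prod) (fun j => σ (x j))) →
    c ∈ Rat K Ω := by
  induction S using Multiset.induction_on with
  | empty =>
    intro _ c hc
    have h0 : c = 0 := by
      ext σ
      rw [hc, Multiset.map_zero, Multiset.prod_zero, ← map_one (algebraMap Ω E),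
        mu_const one_ne_zero]
      rfl
    rw [h0]
    exact zero_mem _
  | cons g S ih =>
    intro hS c hc
    obtain ⟨hgm, hgi, hgd, hg0⟩ := hS g (Multiset.mem_cons_self g S)
    have hS' : ∀ g ∈ S, g.Monic ∧ Irreducible g ∧ g ∣ Phi F X ∧ g.eval (X 3) ≠ 0 :=
      fun g' hg' => hS g' (Multiset.mem_cons_of_mem hg')
    have hr : (S.map fun g => g.eval (X 3)).prod ≠ 0 := by
      refine Multiset.prod_ne_zero ?_
      intro h
      obtain ⟨g', hg', h0⟩ := Multiset.mem_map.1 h
      exact (hS' g' hg').2.2.2 h0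
    obtain ⟨c1, hc1⟩ := exists_cycle (Ω := Ω) hgen X (g.eval (X 3))
    obtain ⟨c2, hc2⟩ := exists_cycle (Ω := Ω) hgen X ((S.map fun g => g.eval (X 3)).prod)
    have h0 : c = c1 + c2 := by
      ext σ
      rw [hc, Multiset.map_cons, Multiset.prod_cons, mu_mul hX hg0 hr, Finsupp.add_apply, hc1, hc2]
    rw [h0]
    exact add_mem (rat_factor hNF hs hF hd h1 hx0 hx hgen hK hR hX hXi hgm hgi hgd hg0 c1 hc1)
      (ih hS' c2 hc2)

end

/-- CV/C3 -/
theorem c3_ (h : StNF) : StC3 := by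
  classical
  intro K Ω E _ _ _ _ _ _ _ _ F d x hs hF hd h1 hx0 hx hgen hK hR X hX hf c hc
  have : CharZero Ω := charZero_of_injective_algebraMap (algebraMap ℂ Ω).injective
  let aE : Algebra ℂ E := ((algebraMap Ω E).comp (algebraMap ℂ Ω)).toAlgebra
  have : IsScalarTower ℂ Ω E := IsScalarTower.of_algebraMap_eq fun z => rfl
  have hcmp : Pool.Agent.N162.CV.cmp Ω F X = MvPolynomial.aeval X F := by
    unfold Pool.Agent.N162.CV.cmp
    rw [MvPolynomial.aeval_map_algebraMap]
  rw [hcmp] at hf hc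
  by_cases hXi : AlgebraicIndependent ℂ (fun i => X (s12 i))
  · have hco := Phi_coeff hF X
    have hlc0 : algebraMap ℂ E (MvPolynomial.eval ![0, 0, 0, 1] F) ≠ 0 :=
      (_root_.map_ne_zero _).2 h1
    have hdeg : (Phi F X).natDegree = d :=
      le_antisymm (Phi_natDegree_le hF X) (le_natDegree_of_ne_zero (by rw [hco]; exact hlc0))
    have hlead : (Phi F X).leadingCoeff = algebraMap ℂ E (MvPolynomial.eval ![0, 0, 0, 1] F) := by
      rw [leadingCoeff, hdeg, hco]
    have h0 : Phi F X ≠ 0 := by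
      intro h
      rw [h, leadingCoeff_zero] at hlead
      exact hlc0 hlead.symm
    obtain ⟨P, hP⟩ : ∃ P, P = Phi F X * C (Phi F X).leadingCoeff⁻¹ := ⟨_, rfl⟩
    have hPm : P.Monic := by
      rw [hP]
      exact monic_mul_leadingCoeff_inv h0
    have hPd : P ∣ Phi F X := by
      refine ⟨C (Phi F X).leadingCoeff, ?_⟩
      rw [hP, mul_assoc, ← C_mul, inv_mul_cancel₀ (leadingCoeff_ne_zero.2 h0), C_1, mul_one]
    have hPe : P.eval (X 3) = MvPolynomial.aeval X F *
        algebraMap Ω E (algebraMap ℂ Ω (MvPolynomial.eval ![0, 0, 0, 1] F))⁻¹ := by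
      rw [hP, eval_mul, eval_C, Phi_eval, hlead, map_inv₀]
      rfl
    have hprod : (UniqueFactorizationMonoid.normalizedFactors P).prod = P := by
      rw [UniqueFactorizationMonoid.prod_normalizedFactors_eq hPm.ne_zero, hPm.normalize_eq_self]
    refine rat_multi h hs hF hd h1 hx0 hx hgen hK hR hX hXi
      (UniqueFactorizationMonoid.normalizedFactors P) (fun g hg => ?_) c (fun σ => ?_)
    · have hgi := UniqueFactorizationMonoid.irreducible_of_normalized_factor g hg
      have hgn := UniqueFactorizationMonoid.normalize_normalized_factor g hg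
      have hgd := (UniqueFactorizationMonoid.dvd_of_mem_normalizedFactors hg).trans hPd
      refine ⟨?_, hgi, hgd, ?_⟩
      · rw [← hgn]
        exact monic_normalize hgi.ne_zero
      · intro h0
        obtain ⟨q, hq⟩ := hgd
        apply hf
        rw [← Phi_eval, hq, eval_mul, h0, zero_mul]
    · have h2 : ((UniqueFactorizationMonoid.normalizedFactors P).map fun g => g.eval (X 3)).prod =
          MvPolynomial.aeval X F *
            algebraMap Ω E (algebraMap ℂ Ω (MvPolynomial.eval ![0, 0, 0, 1] F))⁻¹ := by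
        rw [← hPe]
        conv_rhs => rw [← hprod]
        rw [eval_multiset_prod]
      have h3 : (algebraMap ℂ Ω (MvPolynomial.eval ![0, 0, 0, 1] F))⁻¹ ≠ 0 :=
        inv_ne_zero ((_root_.map_ne_zero _).2 h1)
      rw [h2, mu_mul hX hf ((_root_.map_ne_zero _).2 h3), mu_const h3, add_zero, hc]
  · have h0 : c = 0 := by
      ext σ
      rw [hc]
      by_contra hne
      obtain ⟨v, hv, -⟩ := mu_ne hne
      rw [algebraicIndependent_iff] at hXi
      push Not at hXi
      obtain ⟨p, hp, hp0⟩ := hXi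
      have h2 := at_aeval (v := v) (Z := fun i => X (s12 i)) (z := fun i => σ (x (s12 i)))
        (fun i => hv _) p
      rw [hp, zero_sub, ← map_neg] at h2
      have h3 := neg_eq_zero.1 (const_zero h2)
      have h4 := MvPolynomial.comp_aeval_apply (φ := σ) (fun i => x (s12 i)) p
      rw [h3] at h4
      have h5 := (map_eq_zero σ).1 h4
      exact hp0 (algebraicIndependent_iff.1 (indep hF (by omega) h1 hR) p h5)
    rw [h0]
    exact zero_mem _

end Pool.Agent.N141.CV
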