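import Mathlib

/-!
# CV/C3, part a: algebra (norms, the section polynomial)
-/

set_option autoImplicit false

open Polynomial

namespace Pool.Agent.N141.CV

/-- the norm of `z - w`, `w` a root of `g` -/
theorem norm_sub_root {E : Type} [Field E] {g : E[X]} (hm : g.Monic) (z : E) :
    Algebra.norm E (algebraMap E (AdjoinRoot g) z - AdjoinRoot.root g) = g.eval z := by
  classical
  let pb := AdjoinRoot.powerBasis hm.ne_zero
  have h1 : (Algebra.leftMulMatrix pb.basis pb.gen).charpoly = minpoly E pb.gen :=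
    charpoly_leftMulMatrix pb
  have h2 : minpoly E pb.gen = g := AdjoinRoot.minpoly_powerBasis_gen_of_monic hm
  have h3 : pb.gen = AdjoinRoot.root g := AdjoinRoot.powerBasis_gen hm.ne_zero
  rw [Algebra.norm_eq_matrix_det pb.basis, map_sub, ← h3]
  have h4 : Algebra.leftMulMatrix pb.basis (algebraMap E (AdjoinRoot g) z) =
      Matrix.scalar _ z := by
    rw [AlgHom.commutes]
    rfl
  rw [h4, ← Matrix.eval_charpoly, h1, h2]

section

variable {E : Type} [Field E] [Algebra ℂ E]

/-- the polynomial `F(X 0, X 1, X 2, W)` -/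
noncomputable def Phi (F : MvPolynomial (Fin 4) ℂ) (x : Fin 4 → E) : E[X] :=
  MvPolynomial.aeval (fun j => if j = 3 then X else C (x j)) F

theorem aeval_Phi {N : Type} [CommRing N] [Algebra ℂ N] [Algebra E N] [IsScalarTower ℂ E N]
    (F : MvPolynomial (Fin 4) ℂ) (x : Fin 4 → E) (w : N) :
    aeval w (Phi F x) = MvPolynomial.aeval (fun j => if j = 3 then w else algebraMap E N (x j)) F := by
  have h1 := MvPolynomial.comp_aeval_apply
    (φ := ((aeval w : E[X] →ₐ[E] N).restrictScalars ℂ))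
    (fun j : Fin 4 => if j = 3 then X else C (x j)) F
  have h2 : ((aeval w : E[X] →ₐ[E] N).restrictScalars ℂ) (Phi F x) = aeval w (Phi F x) := rfl
  unfold Phi at h2 ⊢
  rw [← h2, h1]
  congr 2
  funext j
  by_cases hj : j = 3
  · rw [if_pos hj, if_pos hj]
    exact aeval_X w
  · rw [if_neg hj, if_neg hj]
    exact aeval_C w (x j)

theorem Phi_eval (F : MvPolynomial (Fin 4) ℂ) (x : Fin 4 → E) :
    (Phi F x).eval (x 3) = MvPolynomial.aeval x F := by
  have h1 := aeval_Phi (N := E) F x (x 3)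
  rw [coe_aeval_eq_eval] at h1
  rw [h1]
  congr 2
  funext j
  by_cases hj : j = 3
  · rw [if_pos hj, hj]
  · rw [if_neg hj]
    rfl

theorem Phi_expand (F : MvPolynomial (Fin 4) ℂ) (x : Fin 4 → E) :
    Phi F x = ∑ m ∈ F.support, C (algebraMap ℂ E (F.coeff m) * (x 0 ^ m 0 * x 1 ^ m 1 * x 2 ^ m 2)) *
      X ^ m 3 := by
  unfold Phi
  rw [MvPolynomial.aeval_def, MvPolynomial.eval₂_eq']
  refine Finset.sum_congr rfl fun m _ => ?_
  rw [Fin.prod_univ_four]
  simp only [Fin.isValue, show (0 : Fin 4) ≠ 3 by decide, show (1 : Fin 4) ≠ 3 by decide,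
    show (2 : Fin 4) ≠ 3 by decide, if_false, if_true]
  rw [show algebraMap ℂ E[X] (F.coeff m) = C (algebraMap ℂ E (F.coeff m)) from rfl]
  simp only [map_mul, map_pow]
  ring

theorem Phi_natDegree_le {F : MvPolynomial (Fin 4) ℂ} {d : ℕ} (hF : F.IsHomogeneous d)
    (x : Fin 4 → E) : (Phi F x).natDegree ≤ d := by
  rw [Phi_expand]
  refine natDegree_sum_le_of_forall_le _ _ fun m hm => ?_
  refine (natDegree_C_mul_X_pow_le _ _).trans ?_
  have h1 : ∑ i, m i = d := by
    have h2 := hF (MvPolynomial.mem_support_iff.1 hm)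
    rw [← h2, Finsupp.weight_apply, Finsupp.sum_fintype _ _ fun i => by simp]
    simp
  rw [← h1]
  exact Finset.single_le_sum (f := fun i => m i) (fun i _ => Nat.zero_le _) (Finset.mem_univ 3)

theorem Phi_coeff {F : MvPolynomial (Fin 4) ℂ} {d : ℕ} (hF : F.IsHomogeneous d)
    (x : Fin 4 → E) :
    (Phi F x).coeff d = algebraMap ℂ E (MvPolynomial.eval ![0, 0, 0, 1] F) := by
  rw [Phi_expand, finsetSum_coeff, MvPolynomial.eval_eq', map_sum]
  refine Finset.sum_congr rfl fun m hm => ?_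
  rw [coeff_C_mul, coeff_X_pow, Fin.prod_univ_four]
  have h1 : ∑ i, m i = d := by
    have h2 := hF (MvPolynomial.mem_support_iff.1 hm)
    rw [← h2, Finsupp.weight_apply, Finsupp.sum_fintype _ _ fun i => by simp]
    simp
  rw [Fin.sum_univ_four] at h1
  by_cases h3 : d = m 3
  · have h0 : m 0 = 0 := by omega
    have h0' : m 1 = 0 := by omega
    have h0'' : m 2 = 0 := by omega
    rw [if_pos h3, h0, h0', h0'']
    simp
  · rw [if_neg h3, mul_zero]
    have h4 : m 0 ≠ 0 ∨ m 1 ≠ 0 ∨ m 2 ≠ 0 := by omega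
    rcases h4 with h | h | h <;> simp [h]

end

end Pool.Agent.N141.CV
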