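import Pool.Agent.N162.CV.Stm
import Pool.Agent.N162.HS.Sec
import Pool.Agent.Helper386.D5V.Helper399_FF4a
import Pool.Agent.N141.CV.C3a

/-!
# CV/C3, part b: places, one factor
-/

set_option autoImplicit false
set_option linter.overlappingInstances false
set_option linter.unusedSectionVars false
set_option linter.unusedVariables false

open FF Polynomial Pool.Agent.Y184.NT Pool.Agent.Y988.NT Pool.Agent.W603.LV
  Pool.Agent.N162.BC Pool.Agent.N162.CV Pool.Agent.N162.HS

namespace Pool.Agent.N141.CV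

/-- the indices of the transcendence basis -/
def s12 : Fin 2 → Fin 4 := ![1, 2]

/-- the first coordinates are independent -/
theorem indep {K : Type} [Field K] [Algebra ℂ K] {F : MvPolynomial (Fin 4) ℂ} {d : ℕ}
    {x : Fin 4 → K} (hF : F.IsHomogeneous d) (hd : 1 ≤ d)
    (h1 : MvPolynomial.eval ![0, 0, 0, 1] F ≠ 0) (hR : Relns F x) :
    AlgebraicIndependent ℂ (fun i => x (s12 i)) := by
  rw [algebraicIndependent_iff]
  intro p hp
  apply MvPolynomial.funext
  intro q
  rw [map_zero]
  let y : Fin 4 → ℂ := ![1, q 0, q 1, 0]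
  have hdeg : (Phi F y).natDegree = d :=
    le_antisymm (Phi_natDegree_le hF y) (le_natDegree_of_ne_zero (by rw [Phi_coeff hF]; exact h1))
  have h0 : Phi F y ≠ 0 := by
    intro h
    rw [h, natDegree_zero] at hdeg
    omega
  obtain ⟨w, hw⟩ := IsAlgClosed.exists_root (Phi F y) (by
    rw [degree_eq_natDegree h0, hdeg]
    exact_mod_cast (by omega : d ≠ 0))
  let z : Fin 4 → ℂ := fun j => if j = 3 then w else y j
  have hz : MvPolynomial.aeval z F = 0 := by
    have h2 := aeval_Phi (N := ℂ) F y w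
    rw [coe_aeval_eq_eval] at h2
    rw [← hw.eq_zero, h2]
    rfl
  have h2 := hR (MvPolynomial.rename s12 p) (by rw [MvPolynomial.aeval_rename]; exact hp) ℂ z
    (by simp [z, y]) hz
  rw [MvPolynomial.aeval_rename, MvPolynomial.aeval_eq_eval] at h2
  have h3 : z ∘ s12 = q := by
    funext i
    fin_cases i <;> simp [z, y, s12]
  rw [h3] at h2
  exact h2

theorem trdeg_add_eq' (A B C : Type) [Field A] [Field B] [Field C] [Algebra A B] [Algebra A C]
    [Algebra B C] [IsScalarTower A B C] :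
    Algebra.trdeg A B + Algebra.trdeg B C = Algebra.trdeg A C := by
  exact _root_.trdeg_add_eq A B

section places

variable {Ω E : Type} [Field Ω] [Field E] [Algebra Ω E]

theorem ge_of_sub {v : Place Ω E} {Z : E} {z : Ω} (h : Ge v 1 (Z - algebraMap Ω E z)) :
    Ge v 0 Z := by
  have h1 : Z = (Z - algebraMap Ω E z) + algebraMap Ω E z := by ring
  rw [h1]
  exact (h.mono (by norm_num)).add (Ge.const z)

theorem const_zero {v : Place Ω E} {c : Ω} (h : Ge v 1 (algebraMap Ω E c)) : c = 0 := by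
  by_contra hc
  rcases h with h | h
  · exact hc ((map_eq_zero _).1 h)
  · rw [v.ord_const hc] at h
    omega

theorem at_aeval {ι : Type} [Algebra ℂ Ω] [Algebra ℂ E] [IsScalarTower ℂ Ω E] {v : Place Ω E}
    {Z : ι → E} {z : ι → Ω} (h : ∀ i, Ge v 1 (Z i - algebraMap Ω E (z i)))
    (H : MvPolynomial ι ℂ) :
    Ge v 1 (MvPolynomial.aeval Z H - algebraMap Ω E (MvPolynomial.aeval z H)) := by
  induction H using MvPolynomial.induction_on with
  | C a =>
    rw [MvPolynomial.aeval_C, MvPolynomial.aeval_C, ← IsScalarTower.algebraMap_apply, sub_self]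
    exact Ge.zero
  | add p q hp hq =>
    rw [map_add, map_add, map_add, add_sub_add_comm]
    exact hp.add hq
  | mul_X p i hp =>
    rw [map_mul, map_mul, map_mul, MvPolynomial.aeval_X, MvPolynomial.aeval_X]
    have e : MvPolynomial.aeval Z p * Z i -
        algebraMap Ω E (MvPolynomial.aeval z p) * algebraMap Ω E (z i) =
        (MvPolynomial.aeval Z p - algebraMap Ω E (MvPolynomial.aeval z p)) * Z i +
        algebraMap Ω E (MvPolynomial.aeval z p) * (Z i - algebraMap Ω E (z i)) := by ring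
    rw [e]
    have h1 := hp.mul (ge_of_sub (h i))
    have h2 := (Ge.const (P := v) (MvPolynomial.aeval z p)).mul (h i)
    rw [add_zero] at h1
    rw [zero_add] at h2
    exact h1.add h2

/-- a place above which is regular on the valuation ring below -/
theorem over_of_above {M : Type} [Field M] [Algebra Ω M] [Algebra E M] [IsScalarTower Ω E M]
    [FiniteDimensional E M] {v : Place Ω E} {w : Place Ω M}
    (h : ∀ a : E, Ge v 0 a → Ge w 0 (algebraMap E M a)) : ∃ e, Over w v e := by
  have hne : ∃ f : E, w.ord (algebraMap E M f) ≠ 0 := by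
    by_contra hcon
    push Not at hcon
    let w' : Place E M :=
      { ord := w.ord
        ord_zero := w.ord_zero
        ord_mul := w.ord_mul
        ord_add := w.ord_add
        ord_const := fun {c} _ => hcon c
        surj := w.surj }
    obtain ⟨t, ht0, ht⟩ := w.surj
    have h1 := w'.ord_eq_zero_of_isAlgebraic ht0 (Algebra.IsAlgebraic.isAlgebraic t)
    have h2 : w'.ord t = w.ord t := rfl
    rw [h2, ht] at h1
    exact one_ne_zero h1
  obtain ⟨e, v', hv'⟩ := FF.exists_over (K := E) w hne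
  have h1 : v = v' := Place.eq_of_le v v' fun f hf h0 =>
    (v'.reg_iff hf).1 (hv'.reg.1 (h f (Or.inr h0)))
  subst h1
  exact ⟨e, hv'⟩

theorem over_ge {M : Type} [Field M] [Algebra Ω M] [Algebra E M] [IsScalarTower Ω E M]
    {v : Place Ω E} {w : Place Ω M} {e : ℕ} (h : Over w v e) {f : E} :
    Ge w 1 (algebraMap E M f) ↔ Ge v 1 f := by
  unfold Ge
  rw [h.2 f, map_eq_zero]
  have h1 : (0 : ℤ) < e := by exact_mod_cast h.1
  refine or_congr Iff.rfl ⟨fun h2 => ?_, fun h2 => ?_⟩
  · by_contra h3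
    have h4 : v.ord f ≤ 0 := by omega
    have h5 := mul_nonneg h1.le (neg_nonneg.2 h4)
    nlinarith
  · nlinarith

theorem over_unique {M : Type} [Field M] [Algebra Ω M] [Algebra E M] [IsScalarTower Ω E M]
    {v v' : Place Ω E} {w : Place Ω M} {e e' : ℕ} (h : Over w v e) (h' : Over w v' e') :
    v = v' := by
  refine Place.eq_of_le v v' fun f hf h0 => ?_
  exact (v'.reg_iff hf).1 (h'.reg.1 (h.reg.2 (Or.inr h0)))

theorem isFF_fin {M : Type} [Field M] [Algebra Ω M] [Algebra E M] [IsScalarTower Ω E M]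
    [FiniteDimensional E M] [h : IsFF Ω E] : IsFF Ω M where
  ess := by
    have h1 := h.ess
    exact Algebra.EssFiniteType.comp Ω E M
  trdeg := by
    have h1 := trdeg_add_eq' Ω E M
    rw [h.trdeg, _root_.trdeg_eq_zero_iff.2 (inferInstance : Algebra.IsAlgebraic E M), add_zero] at h1
    exact h1.symm

variable {X : Fin 4 → E}

theorem f1_ne (hX : Good Ω X) (a : Ω) : X 1 - algebraMap Ω E a ≠ 0 := by
  intro h
  apply hX.tr
  rw [sub_eq_zero.1 h]
  exact isAlgebraic_algebraMap a

theorem ord_ne_of_ge {v : Place Ω E} {f : E} (hf : f ≠ 0) (h : Ge v 1 f) : v.ord f ≠ 0 := by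
  have h1 := h.resolve_left hf
  omega

theorem at_finite [CharZero Ω] [IsFF Ω E] (hX : Good Ω X) (p : Fin 4 → Ω) :
    {v : Place Ω E | At v X p}.Finite := by
  refine (finite_support (k := Ω) (X 1 - algebraMap Ω E (p 1))).subset ?_
  intro v hv
  exact ord_ne_of_ge (f1_ne hX _) (hv 1)

theorem mu_mul [CharZero Ω] [IsFF Ω E] (hX : Good Ω X) {a b : E} (ha : a ≠ 0) (hb : b ≠ 0)
    (p : Fin 4 → Ω) : mu X (a * b) p = mu X a p + mu X b p := by
  unfold mu
  rw [← finsum_mem_add_distrib (at_finite hX p)]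
  exact finsum_mem_congr rfl fun v _ => v.ord_mul ha hb

theorem mu_const {a : Ω} (ha : a ≠ 0) (p : Fin 4 → Ω) : mu X (algebraMap Ω E a) p = 0 := by
  unfold mu
  refine finsum_mem_eq_zero_of_forall_eq_zero fun v _ => v.ord_const ha

theorem mu_ne {a : E} {p : Fin 4 → Ω} (h : mu X a p ≠ 0) : ∃ v : Place Ω E, At v X p ∧ v.ord a ≠ 0 := by
  by_contra hcon
  push Not at hcon
  exact h (finsum_mem_eq_zero_of_forall_eq_zero fun v hv => hcon v hv)

end places

theorem hom_ext {K Ω : Type} [Field K] [Algebra ℂ K] [Field Ω] [Algebra ℂ Ω] {x : Fin 4 → K}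
    (hgen : IntermediateField.adjoin ℂ (Set.range x) = ⊤) {σ σ' : K →ₐ[ℂ] Ω}
    (h : ∀ j, σ (x j) = σ' (x j)) : σ = σ' := by
  ext a
  have ha : a ∈ IntermediateField.adjoin ℂ (Set.range x) := by
    rw [hgen]
    trivial
  induction ha using IntermediateField.adjoin_induction with
  | mem e he =>
    obtain ⟨l, rfl⟩ := he
    exact h l
  | algebraMap c => rw [AlgHom.commutes, AlgHom.commutes]
  | add a b _ _ ha hb => rw [map_add, map_add, ha, hb]
  | inv a _ ha => rw [map_inv₀, map_inv₀, ha]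
  | mul a b _ _ ha hb => rw [map_mul, map_mul, ha, hb]

/-- the cycle of a function -/
theorem exists_cycle {K Ω E : Type} [Field K] [Algebra ℂ K] [Field Ω] [Algebra ℂ Ω] [Field E]
    [Algebra Ω E] [CharZero Ω] [IsFF Ω E] {x : Fin 4 → K}
    (hgen : IntermediateField.adjoin ℂ (Set.range x) = ⊤) (X : Fin 4 → E) (a : E) :
    ∃ c : (K →ₐ[ℂ] Ω) →₀ ℤ, ∀ σ, c σ = mu X a (fun j => σ (x j)) := by
  classical
  have hfin : {σ : K →ₐ[ℂ] Ω | mu X a (fun j => σ (x j)) ≠ 0}.Finite := by
    have h1 : ∀ σ : K →ₐ[ℂ] Ω, ∃ v : Place Ω E, mu X a (fun j => σ (x j)) ≠ 0 →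
        At v X (fun j => σ (x j)) ∧ v.ord a ≠ 0 := by
      intro σ
      by_cases h : mu X a (fun j => σ (x j)) ≠ 0
      · obtain ⟨v, hv⟩ := mu_ne h
        exact ⟨v, fun _ => hv⟩
      · obtain ⟨v, -⟩ := exists_place (k := Ω) (K := E)
        exact ⟨v, fun h' => absurd h' h⟩
    choose v hv using h1
    refine Set.Finite.of_injOn (f := v) (t := {v : Place Ω E | v.ord a ≠ 0})
      (fun σ hσ => (hv σ hσ).2) ?_ (finite_support (k := Ω) a)
    intro σ hσ σ' hσ' h
    apply hom_ext hgen
    intro j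
    have h2 := (hv σ hσ).1 j
    have h3 := (hv σ' hσ').1 j
    rw [← h] at h3
    have h4 := h3.sub h2
    rw [sub_sub_sub_cancel_left, ← map_sub] at h4
    exact sub_eq_zero.1 (const_zero h4)
  exact ⟨Finsupp.ofSupportFinite _ hfin, fun σ => rfl⟩

/-- one factor -/
theorem rat_abs (hNF : StNF) {K Ω E M : Type} [Field K] [Algebra ℂ K] [Field Ω] [Algebra ℂ Ω]
    [Field E] [Algebra Ω E] [IsAlgClosed Ω] [CharZero Ω] [IsFF Ω E] [Algebra ℂ E]
    [IsScalarTower ℂ Ω E]
    [Field M] [Algebra Ω M] [Algebra E M] [IsScalarTower Ω E M] [Algebra ℂ M]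
    [IsScalarTower ℂ Ω M] [IsScalarTower ℂ E M] [FiniteDimensional E M] [IsFF Ω M]
    {F : MvPolynomial (Fin 4) ℂ} {d : ℕ} {x : Fin 4 → K} (hs : Sm F) (hF : F.IsHomogeneous d)
    (hd : 2 ≤ d) (h1 : MvPolynomial.eval ![0, 0, 0, 1] F ≠ 0) (hx0 : x 0 = 1)
    (hx : MvPolynomial.aeval x F = 0) (hgen : IntermediateField.adjoin ℂ (Set.range x) = ⊤)
    (hK : Algebra.trdeg ℂ K = 2) (hR : Relns F x) {X : Fin 4 → E} (hX : Good Ω X)
    (hXi : AlgebraicIndependent ℂ (fun i => X (s12 i))) (w : M)
    (hw : aeval w (Phi F X) = 0) (gz : E) (hgz : gz ≠ 0)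
    (hnorm : Algebra.norm E (algebraMap E M (X 3) - w) = gz) (c : (K →ₐ[ℂ] Ω) →₀ ℤ)
    (hc : ∀ σ : K →ₐ[ℂ] Ω, c σ = mu X gz (fun j => σ (x j))) : c ∈ Rat K Ω := by
  classical
  obtain ⟨x', hx'⟩ : ∃ x' : Fin 4 → M, x' = fun j => if j = 3 then w else algebraMap E M (X j) :=
    ⟨_, rfl⟩
  have hx'3 : x' 3 = w := by
    rw [hx']
    exact if_pos rfl
  have hx'j : ∀ j, j ≠ 3 → x' j = algebraMap E M (X j) := fun j hj => by
    rw [hx']
    exact if_neg hj
  have hx'F : MvPolynomial.aeval x' F = 0 := by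
    rw [hx', ← aeval_Phi]
    exact hw
  have hx'0 : x' 0 = 1 := by
    rw [hx'j 0 (by decide), hX.one, map_one]
  have hs12 : ∀ i, s12 i ≠ 3 := by
    intro i
    fin_cases i <;> simp [s12]
  have hx'i : AlgebraicIndependent ℂ (fun i => x' (s12 i)) := by
    have h2 := hXi.map' (f := IsScalarTower.toAlgHom ℂ E M) (algebraMap E M).injective
    have h3 : (fun i => x' (s12 i)) = (IsScalarTower.toAlgHom ℂ E M) ∘ (fun i => X (s12 i)) := by
      funext i
      rw [hx'j _ (hs12 i)]
      rfl
    rw [h3]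
    exact h2
  have hspec : ∀ H : MvPolynomial (Fin 4) ℂ, MvPolynomial.aeval x' H = 0 →
      MvPolynomial.aeval x H = 0 := by
    intro H hH
    refine spec_inj (n := 2) (K := M) (M := K) (x := x') (x' := x)
      (fun H hH => hR H hH M x' hx'0 hx'F) hx'i (fun j => ?_) hH
    exact alg_over (n := 2) (M := K) hs hF hx0 hx (indep hF (by omega) h1 hR) j
  obtain ⟨φ, hφ⟩ := exists_emb (n := 2) hs hF hx0 hgen hK hx'0 hx'F hspec
  have hφc : ∀ z : ℂ, (φ : K →+* M) (algebraMap ℂ K z) = algebraMap Ω M (algebraMap ℂ Ω z) := by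
    intro z
    have h2 : (φ : K →+* M) (algebraMap ℂ K z) = φ (algebraMap ℂ K z) := rfl
    rw [h2, AlgHom.commutes, IsScalarTower.algebraMap_apply ℂ Ω M]
  obtain ⟨fM, hfM⟩ : ∃ fM, fM = algebraMap E M (X 3) - w := ⟨_, rfl⟩
  rw [← hfM] at hnorm
  have hfM0 : fM ≠ 0 := by
    intro h
    rw [h, Algebra.norm_zero] at hnorm
    exact hgz hnorm.symm
  apply AddSubgroup.subset_closure
  refine ⟨M, inferInstance, inferInstance, inferInstance, (φ : K →+* M), fM, hφc, hfM0, ?_⟩
  intro σ
  rw [hc]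
  obtain ⟨p, hp⟩ : ∃ p : Fin 4 → Ω, p = fun j => σ (x j) := ⟨_, rfl⟩
  rw [← hp]
  have hpj : ∀ j, σ (x j) = p j := fun j => by rw [hp]
  have hcen : ∀ v : Place Ω M, CentredAt (φ : K →+* M) v σ ↔
      ∀ j, Ge v 1 (x' j - algebraMap Ω M (p j)) := by
    intro v
    rw [centred_iff]
    constructor
    · intro h j
      have h2 := h (x j)
      have h3 : (φ : K →+* M) (x j) = x' j := hφ j
      rw [h3, hpj] at h2
      exact h2
    · intro h a
      refine cen_of_coord (n := 2) hφc hgen (fun j => ?_) a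
      have h3 : (φ : K →+* M) (x j) = x' j := hφ j
      rw [h3, hpj]
      exact h j
  have hmapc : ∀ a : Ω, algebraMap E M (algebraMap Ω E a) = algebraMap Ω M a := fun a =>
    (IsScalarTower.algebraMap_apply Ω E M a).symm
  have hsub : ∀ (j : Fin 4) (a : Ω), algebraMap E M (X j) - algebraMap Ω M a =
      algebraMap E M (X j - algebraMap Ω E a) := by
    intro j a
    rw [map_sub, hmapc]
  have hA : {v : Place Ω M | CentredAt (φ : K →+* M) v σ}.Finite := by
    refine (finite_support (k := Ω) (algebraMap E M (X 1 - algebraMap Ω E (p 1)))).subset ?_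
    intro v hv
    have h2 := (hcen v).1 hv 1
    rw [hx'j 1 (by decide), hsub] at h2
    exact ord_ne_of_ge ((_root_.map_ne_zero _).2 (f1_ne hX _)) h2
  have hB := at_finite hX p
  choose T hT using fun v : Place Ω E => hNF Ω E M v
  have hsumB : mu X gz p = ∑ v ∈ hB.toFinset.biUnion T, v.ord fM := by
    unfold mu
    rw [finsum_mem_eq_finite_toFinset_sum _ hB, Finset.sum_biUnion]
    · refine Finset.sum_congr rfl fun v _ => ?_
      rw [← hnorm]
      exact (hT v).2 fM hfM0
    · intro v _ v' _ hne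
      refine Finset.disjoint_left.2 fun u hu hu' => hne ?_
      obtain ⟨e, he⟩ := over_of_above (((hT v).1 u).1 hu)
      obtain ⟨e', he'⟩ := over_of_above (((hT v').1 u).1 hu')
      exact over_unique he he'
  rw [hsumB, finsum_mem_eq_finite_toFinset_sum _ hA]
  have hgeM : ∀ {v : Place Ω M} {f : M}, f ≠ 0 → Ge v 0 f → v.ord f ≠ 0 → Ge v 1 f := by
    intro v f hf0 hf hne
    have h2 := hf.resolve_left hf0
    right
    omega
  have step1 : ∑ v ∈ hA.toFinset, v.ord fM = ∑ v ∈ hA.toFinset ∪ hB.toFinset.biUnion T, v.ord fM := by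
    refine Finset.sum_subset Finset.subset_union_left fun u hu hnu => ?_
    have hu' : u ∈ hB.toFinset.biUnion T := (Finset.mem_union.1 hu).resolve_left hnu
    rw [Set.Finite.mem_toFinset] at hnu
    obtain ⟨v, hv, huv⟩ := Finset.mem_biUnion.1 hu'
    rw [Set.Finite.mem_toFinset] at hv
    have hv' : At v X p := hv
    obtain ⟨e, he⟩ := over_of_above (((hT v).1 u).1 huv)
    have hj : ∀ j, Ge u 1 (algebraMap E M (X j) - algebraMap Ω M (p j)) := by
      intro j
      rw [hsub]
      exact (over_ge he).2 (hv' j)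
    -- `w` is regular at `u`
    have hreg : Ge u 0 w := by
      by_contra hcon
      unfold Ge at hcon
      push Not at hcon
      obtain ⟨hw0, hwo⟩ := hcon
      have hinv : Ge u 1 w⁻¹ := by
        right
        rw [u.ord_inv]
        omega
      have h3 : ∀ j, Ge u 1 ((fun l => w⁻¹ * x' l) j -
          algebraMap Ω M ((![0, 0, 0, 1] : Fin 4 → Ω) j)) := by
        intro j
        by_cases hj3 : j = 3
        · subst hj3
          show Ge u 1 (w⁻¹ * x' 3 - algebraMap Ω M 1)
          rw [hx'3, inv_mul_cancel₀ hw0, map_one, sub_self]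
          exact Ge.zero
        · have h4 : (![0, 0, 0, 1] : Fin 4 → Ω) j = 0 := by
            fin_cases j <;> simp_all
          rw [h4, map_zero, sub_zero]
          show Ge u 1 (w⁻¹ * x' j)
          rw [hx'j j hj3]
          have h5 := hinv.mul (ge_of_sub (hj j))
          rw [add_zero] at h5
          exact h5
      have h4 := at_aeval h3 F
      rw [aeval_smul_form hF, hx'F, mul_zero, zero_sub, ← map_neg] at h4
      have h5 := const_zero h4
      rw [neg_eq_zero] at h5
      have h6 : MvPolynomial.aeval (![0, 0, 0, 1] : Fin 4 → Ω) F =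
          algebraMap ℂ Ω (MvPolynomial.eval ![0, 0, 0, 1] F) := by
        have h7 := MvPolynomial.aeval_algebraMap_apply Ω (![0, 0, 0, 1] : Fin 4 → ℂ) F
        rw [MvPolynomial.aeval_eq_eval] at h7
        rw [← h7]
        congr 2
        funext j
        fin_cases j <;> simp
      rw [h6, map_eq_zero] at h5
      exact h1 h5
    obtain ⟨om, hom⟩ := exists_const u hreg
    have hne : om ≠ p 3 := by
      rintro rfl
      apply hnu
      refine (hcen u).2 fun j => ?_
      by_cases hj3 : j = 3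
      · rw [hj3, hx'3]
        exact hom
      · rw [hx'j j hj3]
        exact hj j
    by_contra hord
    have h3 : Ge u 0 fM := by
      rw [hfM]
      exact (ge_of_sub (hj 3)).sub hreg
    have h4 := hgeM hfM0 h3 hord
    have h5 : algebraMap Ω M (om - p 3) = (algebraMap E M (X 3) - algebraMap Ω M (p 3)) -
        (w - algebraMap Ω M om) - fM := by
      rw [hfM, map_sub]
      ring
    have h6 : Ge u 1 (algebraMap Ω M (om - p 3)) := by
      rw [h5]
      exact ((hj 3).sub hom).sub h4
    exact hne (sub_eq_zero.1 (const_zero h6))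
  have step2 : ∑ v ∈ hB.toFinset.biUnion T, v.ord fM =
      ∑ v ∈ hA.toFinset ∪ hB.toFinset.biUnion T, v.ord fM := by
    refine Finset.sum_subset Finset.subset_union_right fun u hu hnu => ?_
    have hu' : u ∈ hA.toFinset := (Finset.mem_union.1 hu).resolve_right hnu
    rw [Set.Finite.mem_toFinset] at hu'
    have hj := (hcen u).1 hu'
    by_contra hord
    apply hnu
    have hj' : ∀ j, j ≠ 3 → Ge u 1 (algebraMap E M (X j - algebraMap Ω E (p j))) := by
      intro j hj3
      have h2 := hj j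
      rw [hx'j j hj3, hsub] at h2
      exact h2
    obtain ⟨e, v, hv⟩ := FF.exists_over (K := E) u
      ⟨_, ord_ne_of_ge ((_root_.map_ne_zero _).2 (f1_ne hX (p 1))) (hj' 1 (by decide))⟩
    have hreg1 : Ge v 0 (X 1) := ge_of_sub ((over_ge hv).1 (hj' 1 (by decide)))
    have hreg3 : Ge v 0 (X 3) := hX.fin v hreg1 3
    obtain ⟨ze, hze⟩ := exists_const v hreg3
    have hzeM : Ge u 1 (algebraMap E M (X 3) - algebraMap Ω M ze) := by
      rw [hsub]
      exact (over_ge hv).2 hze
    have hw3 : Ge u 1 (w - algebraMap Ω M (p 3)) := by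
      have h2 := hj 3
      rwa [hx'3] at h2
    have h3 : Ge u 0 fM := by
      rw [hfM]
      exact (ge_of_sub hzeM).sub (ge_of_sub hw3)
    have h4 := hgeM hfM0 h3 hord
    have h5 : algebraMap Ω M (ze - p 3) = fM - (algebraMap E M (X 3) - algebraMap Ω M ze) +
        (w - algebraMap Ω M (p 3)) := by
      rw [hfM, map_sub]
      ring
    have h6 : Ge u 1 (algebraMap Ω M (ze - p 3)) := by
      rw [h5]
      exact (h4.sub hzeM).add hw3
    have h7 : ze = p 3 := sub_eq_zero.1 (const_zero h6)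
    have hat : At v X p := by
      intro j
      by_cases hj3 : j = 3
      · rw [hj3, ← h7]
        exact hze
      · exact (over_ge hv).1 (hj' j hj3)
    refine Finset.mem_biUnion.2 ⟨v, (Set.Finite.mem_toFinset hB).2 hat, ?_⟩
    exact ((hT v).1 u).2 fun h hh => hv.reg.2 hh
  rw [step1, step2]

end Pool.Agent.N141.CV
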